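import Pool.Agent.Helper65.KG.Goals

/-!
# Project KG (MP_20ee5e_ag), packet N4
-/

set_option autoImplicit false

open Finset

namespace Pool.Agent.Helper44.KG.N4

open Pool.Agent.Helper65.KG

/-- the lower bound for one pair -/
def f (x y : ℕ) : ℕ := min (x * y) (2 * (x + y))

/-- the lower bound for `T2` -/
def P (a b c d : ℕ) : ℕ := f a b + f a c + f a d + f b c + f b d + f c d

/-- `Q / R` is the sum of the reciprocals of `b, c, d` -/
def Q (b c d : ℕ) : ℕ := b * c + b * d + c * d

def R (b c d : ℕ) : ℕ := b * c * d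

def chk (a b c d : ℕ) : Bool :=
  let p := P a b c d
  let q := Q b c d
  let r := R b c d
  let s := a + b + c + d
  Nat.blt (100 * s) (18 * p + 100) ||
    ((Nat.ble (63125 * r) (291500 * q) &&
      Nat.blt (1000000 * s * q + 63125 * r * p) (291500 * q * p + 1000000 * q)) ||
    (Nat.ble (164675 * r) (411500 * q) &&
      Nat.blt (1000000 * s * q + 164675 * r * p) (411500 * q * p + 1000000 * q)))

def chkAll : Bool :=
  (List.range 9).all fun x => (List.range 12).all fun y =>
    Nat.blt 33 (4 * x + 3 * y) || (List.range 17).all fun z =>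
      Nat.blt 33 (4 * x + 3 * y + 2 * z) || (List.range 34).all fun w =>
        Nat.blt 33 (4 * x + 3 * y + 2 * z + w) ||
          chk (2 + x) (2 + x + y) (2 + x + y + z) (2 + x + y + z + w)

theorem chkAll_true : chkAll = true := by decide +kernel

/-- the three alternatives -/
def Alt (a b c d : ℕ) : Prop :=
  100 * (a + b + c + d) < 18 * P a b c d + 100 ∨
    (63125 * R b c d ≤ 291500 * Q b c d ∧ 1000000 * (a + b + c + d) * Q b c d +
      63125 * R b c d * P a b c d < 291500 * Q b c d * P a b c d + 1000000 * Q b c d) ∨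
    (164675 * R b c d ≤ 411500 * Q b c d ∧ 1000000 * (a + b + c + d) * Q b c d +
      164675 * R b c d * P a b c d < 411500 * Q b c d * P a b c d + 1000000 * Q b c d)

theorem f_low {x y : ℕ} (hx : 2 ≤ x) (hy : 2 ≤ y) : 2 * (x + y) ≤ f x y + 4 := by
  unfold f
  rcases le_total (x * y) (2 * (x + y)) with h | h
  · rw [min_eq_left h]
    nlinarith [Nat.mul_le_mul hx hy]
  · rw [min_eq_right h]
    omega

theorem alt {a b c d : ℕ} (ha : 2 ≤ a) (hab : a ≤ b) (hbc : b ≤ c) (hcd : c ≤ d) :
    Alt a b c d := by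
  by_cases hs : a + b + c + d ≤ 41
  · have h := chkAll_true
    obtain ⟨x, rfl⟩ := Nat.exists_eq_add_of_le ha
    obtain ⟨y, rfl⟩ := Nat.exists_eq_add_of_le hab
    obtain ⟨z, rfl⟩ := Nat.exists_eq_add_of_le hbc
    obtain ⟨w, rfl⟩ := Nat.exists_eq_add_of_le hcd
    unfold chkAll at h
    rw [List.all_eq_true] at h
    have h1 := h x (List.mem_range.2 (by omega))
    rw [List.all_eq_true] at h1
    have h2 := h1 y (List.mem_range.2 (by omega))
    rw [Bool.or_eq_true] at h2
    rcases h2 with h2 | h2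
    · rw [Nat.blt_eq] at h2
      omega
    rw [List.all_eq_true] at h2
    have h3 := h2 z (List.mem_range.2 (by omega))
    rw [Bool.or_eq_true] at h3
    rcases h3 with h3 | h3
    · rw [Nat.blt_eq] at h3
      omega
    rw [List.all_eq_true] at h3
    have h4 := h3 w (List.mem_range.2 (by omega))
    rw [Bool.or_eq_true] at h4
    rcases h4 with h4 | h4
    · rw [Nat.blt_eq] at h4
      omega
    simp only [chk, Bool.or_eq_true, Bool.and_eq_true, Nat.blt_eq, Nat.ble_eq] at h4
    exact h4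
  · refine Or.inl ?_
    have h1 := f_low ha (ha.trans hab)
    have h2 := f_low ha ((ha.trans hab).trans hbc)
    have h3 := f_low ha (((ha.trans hab).trans hbc).trans hcd)
    have h4 := f_low (ha.trans hab) ((ha.trans hab).trans hbc)
    have h5 := f_low (ha.trans hab) (((ha.trans hab).trans hbc).trans hcd)
    have h6 := f_low ((ha.trans hab).trans hbc) (((ha.trans hab).trans hbc).trans hcd)
    unfold P
    omega

theorem sum_lt (F : Fin 4 → Fin 4 → ℝ) :
    ∑ i, ∑ j ∈ univ.filter (fun j => i < j), F i j =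
      F 0 1 + F 0 2 + F 0 3 + F 1 2 + F 1 3 + F 2 3 := by
  simp only [sum_filter, Fin.sum_univ_four]
  simp
  ring

theorem sum_sym (F : Fin 4 → Fin 4 → ℝ) (hF : ∀ i j, F i j = F j i) :
    ∑ i, ∑ j ∈ univ.filter (fun j => i < j), F i j =
      ((∑ i, ∑ j, F i j) - ∑ i, F i i) / 2 := by
  rw [sum_lt]
  simp only [Fin.sum_univ_four]
  rw [hF 1 0, hF 2 0, hF 3 0, hF 2 1, hF 3 1, hF 3 2]
  ring

theorem t (hKL : S_KL) : S_N4 := by
  intro m T1 T2 T3 hm hT1 hT3 hT2 hxi
  set σ := Tuple.sort m with hσ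
  have hmono : Monotone (m ∘ σ) := Tuple.monotone_sort m
  set a := m (σ 0) with ha
  set b := m (σ 1) with hb
  set c := m (σ 2) with hc
  set d := m (σ 3) with hd
  have hab : a ≤ b := hmono (by decide : (0 : Fin 4) ≤ 1)
  have hbc : b ≤ c := hmono (by decide : (1 : Fin 4) ≤ 2)
  have hcd : c ≤ d := hmono (by decide : (2 : Fin 4) ≤ 3)
  have ha2 : 2 ≤ a := hm _
  have hsum : ∀ g : ℕ → ℝ, ∑ i, g (m i) = g a + g b + g c + g d := by
    intro g
    rw [← Equiv.sum_comp σ, Fin.sum_univ_four]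
  have hS : T3 ≤ (a : ℝ) + b + c + d := by
    have h := hsum fun x => (x : ℝ)
    rw [h] at hT3
    exact hT3
  have hP : (P a b c d : ℝ) ≤ T2 := by
    refine le_trans (le_of_eq ?_) hT2
    rw [sum_sym _ (fun i j => by rw [mul_comm, add_comm])]
    have h1 : ∑ i, ∑ j, min ((m i : ℝ) * m j) (2 * (m i + m j)) =
        ∑ i, ∑ j, min ((m (σ i) : ℝ) * m (σ j)) (2 * (m (σ i) + m (σ j))) := by
      rw [← Equiv.sum_comp σ]
      refine sum_congr rfl fun i _ => ?_
      rw [← Equiv.sum_comp σ]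
    have h2 : ∑ i, min ((m i : ℝ) * m i) (2 * (m i + m i)) =
        ∑ i, min ((m (σ i) : ℝ) * m (σ i)) (2 * (m (σ i) + m (σ i))) := by
      rw [← Equiv.sum_comp σ]
    rw [h1, h2, ← sum_sym _ (fun i j => by rw [mul_comm, add_comm]), sum_lt]
    simp only [P, f]
    push_cast
    rfl
  have ha0 : (0 : ℝ) < a := by
    have : 0 < a := by omega
    exact_mod_cast this
  have hb0 : (0 : ℝ) < b := by
    have : 0 < b := by omega
    exact_mod_cast this
  have hc0 : (0 : ℝ) < c := by
    have : 0 < c := by omega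
    exact_mod_cast this
  have hd0 : (0 : ℝ) < d := by
    have : 0 < d := by omega
    exact_mod_cast this
  have hξ := hxi (1 / b + 1 / c + 1 / d) (by
    intro i
    have h1 : ∑ i, 1 / (m i : ℝ) = 1 / a + 1 / b + 1 / c + 1 / d := hsum fun x => 1 / (x : ℝ)
    have h2 : 1 / (m i : ℝ) + ∑ b ∈ univ.erase i, 1 / (m b : ℝ) = ∑ i, 1 / (m i : ℝ) :=
      add_sum_erase univ (fun x => 1 / (m x : ℝ)) (mem_univ i)
    have h3 : 1 / (m i : ℝ) ≤ 1 / a := by
      apply one_div_le_one_div_of_le ha0
      have h4 : a ≤ m i := by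
        have h5 := hmono (Fin.zero_le (σ.symm i))
        simpa using h5
      exact_mod_cast h4
    linarith)
  have hQT : (Q b c d : ℝ) * T1 ≤ 2 * R b c d * T2 := by
    have e : (Q b c d : ℝ) = (1 / b + 1 / c + 1 / d) * R b c d := by
      simp only [Q, R]
      push_cast
      field_simp
      ring
    rw [e]
    have hR : (0 : ℝ) ≤ R b c d := Nat.cast_nonneg _
    nlinarith [mul_le_mul_of_nonneg_right hξ hR]
  have hQ0 : (0 : ℝ) < Q b c d := by
    simp only [Q]
    push_cast
    positivity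
  obtain ⟨l1, l2, l3⟩ := hKL
  rcases alt ha2 hab hbc hcd with h | ⟨h1, h2⟩ | ⟨h1, h2⟩
  · refine ⟨_, _, l1, ?_⟩
    have h' : (100 : ℝ) * (a + b + c + d) < 18 * P a b c d + 100 := by exact_mod_cast h
    norm_num
    linarith
  · refine ⟨_, _, l2, ?_⟩
    have h1' : (63125 : ℝ) * R b c d ≤ 291500 * Q b c d := by exact_mod_cast h1
    have h2' : (1000000 : ℝ) * (a + b + c + d) * Q b c d + 63125 * R b c d * P a b c d <
        291500 * Q b c d * P a b c d + 1000000 * Q b c d := by exact_mod_cast h2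
    have h3 : (291500 * Q b c d - 63125 * R b c d : ℝ) * P a b c d ≤
        (291500 * Q b c d - 63125 * R b c d) * T2 :=
      mul_le_mul_of_nonneg_left hP (by linarith)
    have h4 : (Q b c d : ℝ) * T3 ≤ Q b c d * (a + b + c + d) :=
      mul_le_mul_of_nonneg_left hS hQ0.le
    have h5 : 0 < (Q b c d : ℝ) * ((3 / 4 * ((1.6455 : ℝ) - 0.7085 / 2) - 1) * T1 +
        (1 - 0.7085) * T2 - T3 + 1) := by
      norm_num
      linarith
    exact (mul_pos_iff_of_pos_left hQ0).1 h5
  · refine ⟨_, _, l3, ?_⟩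
    have h1' : (164675 : ℝ) * R b c d ≤ 411500 * Q b c d := by exact_mod_cast h1
    have h2' : (1000000 : ℝ) * (a + b + c + d) * Q b c d + 164675 * R b c d * P a b c d <
        411500 * Q b c d * P a b c d + 1000000 * Q b c d := by exact_mod_cast h2
    have h3 : (411500 * Q b c d - 164675 * R b c d : ℝ) * P a b c d ≤
        (411500 * Q b c d - 164675 * R b c d) * T2 :=
      mul_le_mul_of_nonneg_left hP (by linarith)
    have h4 : (Q b c d : ℝ) * T3 ≤ Q b c d * (a + b + c + d) :=
      mul_le_mul_of_nonneg_left hS hQ0.le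
    have h5 : 0 < (Q b c d : ℝ) * ((3 / 4 * ((1.5178 : ℝ) - 0.5885 / 2) - 1) * T1 +
        (1 - 0.5885) * T2 - T3 + 1) := by
      norm_num
      linarith
    exact (mul_pos_iff_of_pos_left hQ0).1 h5

end Pool.Agent.Helper44.KG.N4
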